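import Pool.Agent.H98.PW.Stmts

/-!
# PW, row VST: the terms are proportional to first order
-/

set_option autoImplicit false

namespace Pool.PW

namespace VST

open Finset Filter MvPolynomial Pool.Agent.H98.ABCR

variable {U : Ultrafilter ℕ} {X : ℕ → ℝ} {n : ℕ}

/-- large families are nonempty at almost all levels -/
lemma large_ne {T : ℕ → Finset (Fin n → ℕ)} (hX : Tendsto X U atTop) (hT : Large U X T) :
    ∀ᶠ m in (U : Filter ℕ), (T m).Nonempty := by
  obtain ⟨c, _, h⟩ := hT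
  filter_upwards [h, hX.eventually_gt_atTop 0] with m h1 h2
  rw [← Finset.card_pos]
  have h3 : 0 < X m ^ c := Real.rpow_pos_of_pos h2 c
  have h4 : (0 : ℝ) < ((T m).card : ℝ) := lt_of_lt_of_le h3 h1
  exact_mod_cast h4

/-- the product `bb` is not in the ideal -/
lemma bb_not_van (h2 : S_PRM) {T : ℕ → Finset (Fin n → ℕ)} {J : Finset (Fin n)}
    {G : Fin n → RP U X n} {g : ℕ → Fin n → MvPolynomial (Fin n) ℤ}
    (hX : Tendsto X U atTop) (hG : Gen U X T) (hC : Chain U X T J G g) : ¬ Van T (bb J G) := by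
  have hpr := (h2 U X n T hX hG).1
  have key : ∀ s : Finset (Fin n), s ⊆ univ \ J → ¬ Van T (∏ k ∈ s, pderiv k (G k)) := by
    intro s
    induction s using Finset.induction_on with
    | empty =>
      intro _ hv
      rw [Finset.prod_empty] at hv
      have hne := large_ne hX hG.1
      obtain ⟨m, h3, x, hx⟩ := (hv.and hne).exists
      have h4 := h3 x hx
      simp [ev, lv] at h4
    | insert a s ha ih =>
      intro hs hv
      rw [Finset.prod_insert ha] at hv
      rcases hpr _ _ hv with h3 | h3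
      · have h4 : a ∈ univ \ J := hs (Finset.mem_insert_self a s)
        exact hC.nz a (by simpa using h4) h3
      · exact ih (fun k hk => hs (Finset.mem_insert_of_mem hk)) h3
  exact key _ (le_refl _)

lemma ev_cast {m : ℕ} {F : RP U X n} {f : MvPolynomial (Fin n) ℤ}
    (h : lv m F = map (Int.castRingHom ℚ) f) (x : Fin n → ℕ) :
    ev m x F = ((eval (pt x) f : ℤ) : ℚ) := by
  unfold ev
  rw [h, eval_map]
  have h1 : ((eval (pt x) f : ℤ) : ℚ) = (Int.castRingHom ℚ) (eval (pt x) f) := rfl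
  rw [h1, MvPolynomial.eval, ← MvPolynomial.coe_eval₂Hom, ← RingHom.comp_apply]
  congr 1
  apply MvPolynomial.ringHom_ext
  · intro r; simp
  · intro k; simp [pt]

lemma ev_bb (h1 : S_MAP) {T : ℕ → Finset (Fin n → ℕ)} {J : Finset (Fin n)}
    {G : Fin n → RP U X n} {g : ℕ → Fin n → MvPolynomial (Fin n) ℤ}
    (hC : Chain U X T J G g) : ∀ᶠ m in (U : Filter ℕ), ∀ x : Fin n → ℕ,
    ev m x (bb J G) = ((eval (pt x) (bb J (g m)) : ℤ) : ℚ) := by
  filter_upwards [hC.lvg] with m hm x
  apply ev_cast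
  unfold lv
  rw [(h1 _ _ (lam m) n J G).1, (h1 _ _ (Int.castRingHom ℚ) n J (g m)).1]
  congr 1
  funext k
  exact hm k

lemma ev_xi (h1 : S_MAP) {T : ℕ → Finset (Fin n → ℕ)} {J : Finset (Fin n)}
    {G : Fin n → RP U X n} {g : ℕ → Fin n → MvPolynomial (Fin n) ℤ}
    {e : ℕ → Fin n → ℕ} {es : Fin n → Modr U X} (sd : Fin n → Fin 3) (i : Fin n)
    (hC : Chain U X T J G g)
    (he : ∀ᶠ m in (U : Filter ℕ), ∀ k, lam m (es k) = (e m k : ℚ)) :
    ∀ᶠ m in (U : Filter ℕ), ∀ (x : Fin n → ℕ) (s : Fin 3),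
    ev m x (xi J G es sd i s) =
      ((eval (pt x) (xi J (g m) (fun k => (e m k : ℤ)) sd i s) : ℤ) : ℚ) := by
  filter_upwards [hC.lvg, he] with m hm hm2 x s
  apply ev_cast
  unfold lv
  rw [(h1 _ _ (lam m) n J G).2.2.1, (h1 _ _ (Int.castRingHom ℚ) n J (g m)).2.2.1]
  congr 1
  · funext k
    exact hm k
  · funext k
    rw [hm2 k]
    simp

lemma eval_tmp (e : Fin n → ℕ) (sd : Fin n → Fin 3) (α : Fin 3 → ℕ) (s : Fin 3) (x : Fin n → ℕ) :
    eval (pt x) (tmp e sd α s : MvPolynomial (Fin n) ℤ) = (tm e sd α s x : ℤ) := by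
  simp [tmp, tm, pt, map_prod]

/-- logarithms are small -/
lemma log_small (hX : Tendsto X U atTop) (A B c : ℝ) (hc : 0 < c) (hA : 0 ≤ A) :
    ∀ᶠ m in (U : Filter ℕ), A * Real.log (mm X m) + B ≤ X m ^ c := by
  have h1 : Tendsto (fun x : ℝ => Real.log x / x ^ c) atTop (nhds 0) := by
    exact (isLittleO_log_rpow_atTop hc).tendsto_div_nhds_zero
  have h2 : Tendsto (fun x : ℝ => x ^ c) atTop atTop := tendsto_rpow_atTop hc
  have h3 : ∀ᶠ x : ℝ in atTop, Real.log x / x ^ c < 1 / (2 * (A + 1)) :=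
    h1.eventually (gt_mem_nhds (by positivity))
  have h4 : ∀ᶠ x : ℝ in atTop, 2 * (A * Real.log 2 + B) ≤ x ^ c := h2.eventually_ge_atTop _
  have h5 : ∀ᶠ x : ℝ in atTop, A * Real.log (2 + |x|) + B ≤ x ^ c := by
    filter_upwards [h3, h4, eventually_ge_atTop (2 : ℝ)] with x hx3 hx4 hx5
    have hx0 : 0 < x := by linarith
    have hxc : 0 < x ^ c := Real.rpow_pos_of_pos hx0 c
    have e1 : Real.log (2 + |x|) ≤ Real.log 2 + Real.log x := by
      rw [← Real.log_mul (by norm_num) hx0.ne', abs_of_pos hx0]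
      apply Real.log_le_log (by linarith)
      linarith
    rw [div_lt_iff₀ hxc] at hx3
    have e2 : A * Real.log x ≤ x ^ c / 2 := by
      have hl : 0 ≤ Real.log x := Real.log_nonneg (by linarith)
      have e3 : (A + 1) * Real.log x ≤ (A + 1) * (1 / (2 * (A + 1)) * x ^ c) :=
        mul_le_mul_of_nonneg_left hx3.le (by linarith)
      have e4 : (A + 1) * (1 / (2 * (A + 1)) * x ^ c) = x ^ c / 2 := by
        field_simp
      nlinarith
    have e5 : A * Real.log (2 + |x|) ≤ A * (Real.log 2 + Real.log x) :=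
      mul_le_mul_of_nonneg_left e1 hA
    nlinarith
  exact hX.eventually h5

/-- powers are small -/
lemma pow_small (hX : Tendsto X U atTop) (B : ℕ) :
    ∀ᶠ m in (U : Filter ℕ), 4 * mm X m ^ B < X m ^ ((B + 1 : ℕ) : ℝ) := by
  filter_upwards [hX.eventually_gt_atTop (2 ^ (B + 2))] with m hm
  have h2 : (2 : ℝ) ≤ 2 ^ (B + 2) := by
    calc (2 : ℝ) = 2 ^ 1 := by norm_num
      _ ≤ 2 ^ (B + 2) := pow_le_pow_right₀ (by norm_num) (by omega)
  have h0 : 0 < X m := by linarith
  have h3 : mm X m ≤ 2 * X m := by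
    unfold mm
    rw [abs_of_pos h0]
    linarith
  have h4 : 0 ≤ mm X m := by unfold mm; positivity
  rw [Real.rpow_natCast]
  calc 4 * mm X m ^ B ≤ 4 * (2 * X m) ^ B := by
        have := pow_le_pow_left₀ h4 h3 B
        linarith
    _ = 2 ^ (B + 2) * X m ^ B := by rw [mul_pow]; ring
    _ < X m * X m ^ B := by
        apply mul_lt_mul_of_pos_right hm (pow_pos h0 B)
    _ = X m ^ (B + 1) := by ring

/-- `∏ x_k` times the derivative of `f` at a point -/
lemma prod_EE (h4 : S_DLG) (J : Finset (Fin n)) (g : Fin n → MvPolynomial (Fin n) ℤ) (i : Fin n)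
    (e : Fin n → ℕ) (sd : Fin n → Fin 3) (α : Fin 3 → ℕ) (x : Fin n → ℕ) :
    (∏ k, (x k : ℤ)) * eval (pt x) (EE J g i (tmp e sd α 0 + tmp e sd α 1 - tmp e sd α 2)) =
      (tm e sd α 0 x : ℤ) * eval (pt x) (xi J g (fun k => (e k : ℤ)) sd i 0) +
      (tm e sd α 1 x : ℤ) * eval (pt x) (xi J g (fun k => (e k : ℤ)) sd i 1) -
      (tm e sd α 2 x : ℤ) * eval (pt x) (xi J g (fun k => (e k : ℤ)) sd i 2) := by
  obtain ⟨_, hadd, _, hl⟩ := h4 ℤ n J g i
  have hsub : EE J g i (tmp e sd α 0 + tmp e sd α 1 - tmp e sd α 2) =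
      EE J g i (tmp e sd α 0) + EE J g i (tmp e sd α 1) - EE J g i (tmp e sd α 2) := by
    rw [eq_sub_iff_add_eq, ← hadd, ← hadd]
    congr 1
    ring
  have hp : eval (pt x) (∏ k, (X k : MvPolynomial (Fin n) ℤ)) = ∏ k, (x k : ℤ) := by
    simp [map_prod, pt]
  have hs : ∀ s, (∏ k, (x k : ℤ)) * eval (pt x) (EE J g i (tmp e sd α s)) =
      (tm e sd α s x : ℤ) * eval (pt x) (xi J g (fun k => (e k : ℤ)) sd i s) := by
    intro s
    have h := congrArg (eval (pt x)) (hl e sd α s)
    rw [map_mul, map_mul, hp, eval_tmp] at h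
    exact h
  rw [hsub, map_sub, map_add, mul_sub, mul_add, hs, hs, hs]

end VST

open Finset Filter MvPolynomial Pool.Agent.H98.ABCR in
theorem vst_thm (h1 : S_MAP) (h2 : S_DLG) (h3 : S_DIC) (h4 : S_PRM) (h5 : S_HTE) (h6 : S_DTN) :
    S_VST := by
  classical
  intro U X n T J G g e sd α es hX hGen hBox hC hE hes i hi s
  by_contra hcon
  have hD := (h4 U X n T hX hGen).2
  obtain ⟨T1, hT1, hL1, hne1⟩ := hD _ T hcon (fun m => le_refl _) hGen.1
  obtain ⟨T2, hT2, hL2, hne2⟩ := hD _ T1 (VST.bb_not_van h4 hX hGen hC) hT1 hL1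
  -- the two parts
  let f : ℕ → MvPolynomial (Fin n) ℤ := fun m =>
    tmp (e m) sd (α m) 0 + tmp (e m) sd (α m) 1 - tmp (e m) sd (α m) 2
  let A1 : ℕ → Finset (Fin n → ℕ) := fun m =>
    (T2 m).filter (fun x => eval (pt x) (EE J (g m) i (f m)) ≠ 0)
  let A2 : ℕ → Finset (Fin n → ℕ) := fun m =>
    (T2 m).filter (fun x => ¬ (eval (pt x) (EE J (g m) i (f m)) ≠ 0))
  have hA12 : ∀ m, T2 m ⊆ A1 m ∪ A2 m := by
    intro m
    rw [Finset.filter_union_filter_not_eq]
  have hbb := VST.ev_bb h1 hC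
  have hxi := VST.ev_xi h1 sd i hC hes
  obtain ⟨B0, hB0⟩ := h5 U X n (bb J G)
  obtain ⟨B1, hB1⟩ := h5 U X n (xi J G es sd i 0)
  obtain ⟨B2, hB2⟩ := h5 U X n (xi J G es sd i 1)
  obtain ⟨B3, hB3⟩ := h5 U X n (xi J G es sd i 2)
  -- bound of the values
  have hbd : ∀ᶠ m in (U : Filter ℕ), ∀ x ∈ T m, ∀ t : Fin 3,
      |((eval (pt x) (xi J (g m) (fun k => (e m k : ℤ)) sd i t) : ℤ) : ℝ)| ≤
        mm X m ^ (B1 + B2 + B3) := by
    filter_upwards [hB1, hB2, hB3, hxi, hBox] with m h1 h2 h3 h4 h5 x hx t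
    have hx' : ∀ k, (x k : ℝ) ≤ X m := fun k => (h5 x hx k).2
    have hm : 1 ≤ mm X m := by unfold mm; linarith [abs_nonneg (X m)]
    have e0 : ((eval (pt x) (xi J (g m) (fun k => (e m k : ℤ)) sd i t) : ℤ) : ℝ) =
        ((ev m x (xi J G es sd i t) : ℚ) : ℝ) := by
      rw [h4 x t]; simp
    rw [e0]
    fin_cases t
    · exact (h1 x hx').trans (pow_le_pow_right₀ hm (by omega))
    · exact (h2 x hx').trans (pow_le_pow_right₀ hm (by omega))
    · exact (h3 x hx').trans (pow_le_pow_right₀ hm (by omega))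
  rcases h3 U X n T2 A1 A2 hX hL2 hA12 with hL | hL
  · -- first case: the determinant method
    refine h6 U X n T A1 J G g f i hX hGen hBox hC hi
      (fun m => (Finset.filter_subset _ _).trans (hT2 m |>.trans (hT1 m))) hL ?_ ?_
    · filter_upwards [hbb, hE.sum] with m hm1 hm2 x hx
      have hx2 : x ∈ T2 m := (Finset.mem_filter.1 hx).1
      have hxT : x ∈ T m := hT1 m (hT2 m hx2)
      constructor
      · simp only [f, map_sub, map_add, VST.eval_tmp]
        have := hm2 x hxT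
        have h' : ((tm (e m) sd (α m) 0 x : ℤ)) + (tm (e m) sd (α m) 1 x : ℤ) =
            (tm (e m) sd (α m) 2 x : ℤ) := by exact_mod_cast this
        linarith
      · rw [map_mul]
        refine mul_ne_zero ?_ (Finset.mem_filter.1 hx).2
        intro h0
        apply hne2 m x hx2
        rw [hm1 x, h0]
        simp
    · intro c hc
      have hlog := VST.log_small hX ((B0 + (B1 + B2 + B3) : ℕ) : ℝ)
        (Real.log 2) (c / 2) (by linarith) (by positivity)
      have hbig : ∀ᶠ m in (U : Filter ℕ), (2 : ℝ) ≤ X m ^ (c / 2) :=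
        ((tendsto_rpow_atTop (by linarith : 0 < c / 2)).comp hX).eventually_ge_atTop 2
      filter_upwards [hbb, hE.sum, hbd, hB0, hBox, hE.sml (c / 2) (by linarith), hlog, hbig,
        hX.eventually_gt_atTop 0] with m hm1 hm2 hm3 hm4 hm5 hm6 hm7 hm8 hm9 x hx
      have hx2 : x ∈ T2 m := (Finset.mem_filter.1 hx).1
      have hxT : x ∈ T m := hT1 m (hT2 m hx2)
      have hx' : ∀ k, (x k : ℝ) ≤ X m := fun k => (hm5 x hxT k).2
      have hEE0 := (Finset.mem_filter.1 hx).2
      have hbb0 : eval (pt x) (bb J (g m)) ≠ 0 := by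
        intro h0
        apply hne2 m x hx2
        rw [hm1 x, h0]
        simp
      have hmm : 0 < mm X m := by unfold mm; positivity
      -- the three terms
      have hsum : ((tm (e m) sd (α m) 0 x : ℕ) : ℝ) + ((tm (e m) sd (α m) 1 x : ℕ) : ℝ) =
          ((tm (e m) sd (α m) 2 x : ℕ) : ℝ) := by exact_mod_cast hm2 x hxT
      have hprod := VST.prod_EE h2 J (g m) i (e m) sd (α m) x
      have hP : (1 : ℝ) ≤ ∏ k, (x k : ℝ) := by
        have hpn : 0 < ∏ k, x k := Finset.prod_pos (fun k _ => (hm5 x hxT k).1)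
        have hpn' : 1 ≤ ∏ k, x k := hpn
        exact_mod_cast hpn'
      have hEEb : |((eval (pt x) (EE J (g m) i (f m)) : ℤ) : ℝ)| ≤
          2 * (tm (e m) sd (α m) 2 x : ℝ) * mm X m ^ (B1 + B2 + B3) := by
        have hR : (∏ k, (x k : ℝ)) * ((eval (pt x) (EE J (g m) i (f m)) : ℤ) : ℝ) =
            (tm (e m) sd (α m) 0 x : ℝ) *
              ((eval (pt x) (xi J (g m) (fun k => (e m k : ℤ)) sd i 0) : ℤ) : ℝ) +
            (tm (e m) sd (α m) 1 x : ℝ) *
              ((eval (pt x) (xi J (g m) (fun k => (e m k : ℤ)) sd i 1) : ℤ) : ℝ) -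
            (tm (e m) sd (α m) 2 x : ℝ) *
              ((eval (pt x) (xi J (g m) (fun k => (e m k : ℤ)) sd i 2) : ℤ) : ℝ) := by
          have := congrArg (fun z : ℤ => (z : ℝ)) hprod
          push_cast at this
          exact this
        set a0 := ((eval (pt x) (xi J (g m) (fun k => (e m k : ℤ)) sd i 0) : ℤ) : ℝ)
        set a1 := ((eval (pt x) (xi J (g m) (fun k => (e m k : ℤ)) sd i 1) : ℤ) : ℝ)
        set a2 := ((eval (pt x) (xi J (g m) (fun k => (e m k : ℤ)) sd i 2) : ℤ) : ℝ)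
        have b0 : |a0| ≤ mm X m ^ (B1 + B2 + B3) := hm3 x hxT 0
        have b1 : |a1| ≤ mm X m ^ (B1 + B2 + B3) := hm3 x hxT 1
        have b2 : |a2| ≤ mm X m ^ (B1 + B2 + B3) := hm3 x hxT 2
        set M := mm X m ^ (B1 + B2 + B3)
        set t0 := ((tm (e m) sd (α m) 0 x : ℕ) : ℝ)
        set t1 := ((tm (e m) sd (α m) 1 x : ℕ) : ℝ)
        set t2 := ((tm (e m) sd (α m) 2 x : ℕ) : ℝ)
        have p0 : 0 ≤ t0 := Nat.cast_nonneg _
        have p1 : 0 ≤ t1 := Nat.cast_nonneg _
        have p2 : 0 ≤ t2 := Nat.cast_nonneg _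
        set E := ((eval (pt x) (EE J (g m) i (f m)) : ℤ) : ℝ)
        calc |E| ≤ (∏ k, (x k : ℝ)) * |E| := by nlinarith [abs_nonneg E]
          _ = |(∏ k, (x k : ℝ)) * E| := by
              rw [abs_mul, abs_of_pos (lt_of_lt_of_le one_pos hP)]
          _ = |t0 * a0 + t1 * a1 - t2 * a2| := by rw [hR]
          _ ≤ |t0 * a0| + |t1 * a1| + |t2 * a2| := by
              have := abs_sub (t0 * a0 + t1 * a1) (t2 * a2)
              have := abs_add_le (t0 * a0) (t1 * a1)
              linarith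
          _ ≤ t0 * M + t1 * M + t2 * M := by
              rw [abs_mul, abs_mul, abs_mul, abs_of_nonneg p0, abs_of_nonneg p1, abs_of_nonneg p2]
              have := mul_le_mul_of_nonneg_left b0 p0
              have := mul_le_mul_of_nonneg_left b1 p1
              have := mul_le_mul_of_nonneg_left b2 p2
              linarith
          _ = (t0 + t1 + t2) * M := by ring
          _ = 2 * t2 * M := by rw [hsum]; ring
      have hbbb : |((eval (pt x) (bb J (g m)) : ℤ) : ℝ)| ≤ mm X m ^ B0 := by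
        have h' := hm4 x hx'
        rw [hm1 x] at h'
        simpa using h'
      have ht2 : 0 < (tm (e m) sd (α m) 2 x : ℝ) := by
        by_contra hneg
        have h0 : (tm (e m) sd (α m) 2 x : ℝ) ≤ 0 := not_lt.1 hneg
        have h1' : |((eval (pt x) (EE J (g m) i (f m)) : ℤ) : ℝ)| ≤ 0 := by
          refine hEEb.trans ?_
          have : 0 ≤ mm X m ^ (B1 + B2 + B3) := by positivity
          nlinarith
        have h2' : ((eval (pt x) (EE J (g m) i (f m)) : ℤ) : ℝ) = 0 := abs_nonpos_iff.1 h1'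
        exact hEE0 (by exact_mod_cast h2')
      rw [map_mul]
      push_cast
      have hpos : 0 < |((eval (pt x) (bb J (g m)) : ℤ) : ℝ) *
          ((eval (pt x) (EE J (g m) i (f m)) : ℤ) : ℝ)| := by
        apply abs_pos.2
        apply mul_ne_zero
        · exact_mod_cast hbb0
        · exact_mod_cast hEE0
      calc Real.log |((eval (pt x) (bb J (g m)) : ℤ) : ℝ) *
            ((eval (pt x) (EE J (g m) i (f m)) : ℤ) : ℝ)|
          ≤ Real.log (mm X m ^ B0 *
              (2 * (tm (e m) sd (α m) 2 x : ℝ) * mm X m ^ (B1 + B2 + B3))) := by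
            apply Real.log_le_log hpos
            rw [abs_mul]
            exact mul_le_mul hbbb hEEb (abs_nonneg _) (by positivity)
        _ = Real.log (mm X m ^ (B0 + (B1 + B2 + B3)) * 2 * (tm (e m) sd (α m) 2 x : ℝ)) := by
            congr 1
            rw [pow_add]
            ring
        _ = ((B0 + (B1 + B2 + B3) : ℕ) : ℝ) * Real.log (mm X m) + Real.log 2 +
              Real.log (tm (e m) sd (α m) 2 x : ℝ) := by
            rw [Real.log_mul (by positivity) ht2.ne', Real.log_mul (by positivity) (by norm_num),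
              Real.log_pow]
        _ ≤ X m ^ (c / 2) + X m ^ (c / 2) := by
            have := hm6 x hxT
            linarith
        _ ≤ X m ^ c := by
            have e1 : X m ^ c = X m ^ (c / 2) * X m ^ (c / 2) := by
              rw [← Real.rpow_add hm9]; ring_nf
            rw [e1]
            nlinarith
  · -- second case
    have hne := VST.large_ne hX hL
    obtain ⟨m, hm⟩ := (((((((hne.and hE.sum).and hE.cop).and (hE.big
      ((B1 + B2 + B3 + 1 : ℕ) : ℝ))).and hbd).and hxi).and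
      (VST.pow_small hX (B1 + B2 + B3))).and hBox).exists
    obtain ⟨⟨⟨⟨⟨⟨⟨⟨x, hx⟩, hsum⟩, hcop⟩, hbig⟩, hbd⟩, hxi⟩, hsmall⟩, hbox⟩ := hm
    have hx2 : x ∈ T2 m := (Finset.mem_filter.1 hx).1
    have hx1 : x ∈ T1 m := hT2 m hx2
    have hxT : x ∈ T m := hT1 m hx1
    have hEE0 : eval (pt x) (EE J (g m) i (f m)) = 0 := not_not.1 (Finset.mem_filter.1 hx).2
    have hprod := VST.prod_EE h2 J (g m) i (e m) sd (α m) x
    have hs := hsum x hxT
    have hc := hcop x hxT
    have hb := hbig x hxT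
    have hv := hbd x hxT
    have hnv := hne1 m x hx1
    have hnv2 : eval (pt x) (xi J (g m) (fun k => (e m k : ℤ)) sd i s) ≠
        eval (pt x) (xi J (g m) (fun k => (e m k : ℤ)) sd i 2) := by
      intro h0
      apply hnv
      have e1 : ev m x (xi J G es sd i s - xi J G es sd i 2) =
          ev m x (xi J G es sd i s) - ev m x (xi J G es sd i 2) := by
        simp [ev, lv]
      rw [e1, hxi x s, hxi x 2, h0]
      ring
    rw [show EE J (g m) i (tmp (e m) sd (α m) 0 + tmp (e m) sd (α m) 1 - tmp (e m) sd (α m) 2) =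
      EE J (g m) i (f m) from rfl, hEE0, mul_zero] at hprod
    have v0 := hv 0
    have v1 := hv 1
    have v2 := hv 2
    clear hv hbd hsum hcop hbig hbox
    set a0 := eval (pt x) (xi J (g m) (fun k => (e m k : ℤ)) sd i 0)
    set a1 := eval (pt x) (xi J (g m) (fun k => (e m k : ℤ)) sd i 1)
    set a2 := eval (pt x) (xi J (g m) (fun k => (e m k : ℤ)) sd i 2) with ha2
    set t0 := tm (e m) sd (α m) 0 x
    set t1 := tm (e m) sd (α m) 1 x
    set t2 := tm (e m) sd (α m) 2 x
    have hs' : (t2 : ℤ) = t0 + t1 := by exact_mod_cast hs.symm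
    have hlin : (t0 : ℤ) * (a0 - a2) + (t1 : ℤ) * (a1 - a2) = 0 := by
      rw [hs'] at hprod
      linarith
    have hcz : IsCoprime (t0 : ℤ) (t1 : ℤ) := Nat.isCoprime_iff_coprime.2 hc
    have hd1 : (t1 : ℤ) ∣ a0 - a2 := by
      have : (t1 : ℤ) ∣ (t0 : ℤ) * (a0 - a2) := ⟨-(a1 - a2), by linarith⟩
      exact hcz.symm.dvd_of_dvd_mul_left this
    have hd0 : (t0 : ℤ) ∣ a1 - a2 := by
      have : (t0 : ℤ) ∣ (t1 : ℤ) * (a1 - a2) := ⟨-(a0 - a2), by linarith⟩
      exact hcz.dvd_of_dvd_mul_left this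
    set M := mm X m ^ (B1 + B2 + B3)
    have hsR : (t2 : ℝ) = t0 + t1 := by exact_mod_cast hs.symm
    have hM0 : 0 ≤ M := by
      have : 0 ≤ mm X m := by unfold mm; positivity
      positivity
    have hbig2 : 4 * M < (t2 : ℝ) := lt_of_lt_of_le hsmall hb
    have w0 : |((a0 - a2 : ℤ) : ℝ)| ≤ 2 * M := by
      push_cast
      have := abs_sub (a0 : ℝ) (a2 : ℝ)
      linarith
    have w1 : |((a1 - a2 : ℤ) : ℝ)| ≤ 2 * M := by
      push_cast
      have := abs_sub (a1 : ℝ) (a2 : ℝ)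
      linarith
    -- a small multiple of a large number is zero
    have hz : ∀ (t : ℕ) (z : ℤ), (t : ℤ) ∣ z → |(z : ℝ)| ≤ 2 * M → 2 * M < (t : ℝ) → z = 0 := by
      intro t z h1 h2 h3
      apply Int.eq_zero_of_abs_lt_dvd h1
      have : |(z : ℝ)| < (t : ℝ) := lt_of_le_of_lt h2 h3
      exact_mod_cast this
    have hboth : a0 - a2 = 0 ∧ a1 - a2 = 0 := by
      rcases le_total t0 t1 with hle | hle
      · have hle' : (t0 : ℝ) ≤ t1 := by exact_mod_cast hle
        have h' : 2 * M < (t1 : ℝ) := by linarith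
        have z0 : a0 - a2 = 0 := hz t1 _ hd1 w0 h'
        have ht1 : (t1 : ℤ) ≠ 0 := by
          have : (0 : ℝ) < t1 := by linarith
          have : 0 < t1 := by exact_mod_cast this
          omega
        refine ⟨z0, ?_⟩
        rw [z0, mul_zero, zero_add] at hlin
        exact (mul_eq_zero.1 hlin).resolve_left ht1
      · have hle' : (t1 : ℝ) ≤ t0 := by exact_mod_cast hle
        have h' : 2 * M < (t0 : ℝ) := by linarith
        have z1 : a1 - a2 = 0 := hz t0 _ hd0 w1 h'
        have ht0 : (t0 : ℤ) ≠ 0 := by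
          have : (0 : ℝ) < t0 := by linarith
          have : 0 < t0 := by exact_mod_cast this
          omega
        refine ⟨?_, z1⟩
        rw [z1, mul_zero, add_zero] at hlin
        exact (mul_eq_zero.1 hlin).resolve_left ht0
    apply hnv2
    fin_cases s
    · exact sub_eq_zero.1 hboth.1
    · exact sub_eq_zero.1 hboth.2
    · rfl

end Pool.PW
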